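import Pool.Agent.Y462.PA.Stm
import Mathlib.GroupTheory.PushoutI

/-!
# The factors of an amalgamated product embed
-/

set_option autoImplicit false

namespace Pool.Agent.Y604.PA

open Pool.Agent.Y462.PA

/-- the two factors as a family -/
abbrev fam (A B : Type) (b : Bool) : Type := cond b A B

noncomputable instance famGroup (A B : Type) [Group A] [Group B] : ∀ b, Group (fam A B b)
  | true => inferInstanceAs (Group A)
  | false => inferInstanceAs (Group B)

/-- the two embeddings of the amalgamated subgroup as a family -/
def famHom {K A B : Type} [Group K] [Group A] [Group B] (α : K →* A) (β : K →* B) :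
    ∀ b, K →* fam A B b
  | true => α
  | false => β

theorem famHom_injective {K A B : Type} [Group K] [Group A] [Group B] {α : K →* A} {β : K →* B}
    (hα : Function.Injective α) (hβ : Function.Injective β) :
    ∀ b, Function.Injective (famHom α β b)
  | true => hα
  | false => hβ

theorem t_aminj : S_AMINJ := by
  intro K A B _ _ _ α β hα hβ
  have hi := famHom_injective hα hβ
  let f : A →* Monoid.PushoutI (famHom α β) := Monoid.PushoutI.of (φ := famHom α β) true
  let g : B →* Monoid.PushoutI (famHom α β) := Monoid.PushoutI.of (φ := famHom α β) false
  have hf : Function.Injective f := Monoid.PushoutI.of_injective hi true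
  have hg : Function.Injective g := Monoid.PushoutI.of_injective hi false
  have hc : ∀ c : K, f (α c) = g (β c) := by
    intro c
    have h1 : f (α c) = Monoid.PushoutI.base (famHom α β) c :=
      Monoid.PushoutI.of_apply_eq_base (famHom α β) true c
    have h2 : g (β c) = Monoid.PushoutI.base (famHom α β) c :=
      Monoid.PushoutI.of_apply_eq_base (famHom α β) false c
    rw [h1, h2]
  constructor
  · intro a a' h
    apply hf
    rw [← Am.lift_inl α β f g hc a, ← Am.lift_inl α β f g hc a', h]
  · intro b b' h
    apply hg
    rw [← Am.lift_inr α β f g hc b, ← Am.lift_inr α β f g hc b', h]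

end Pool.Agent.Y604.PA
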